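import Pool.Agent.H84.FK.Targets2

/-! # Board fk2_modules, module D7: central elements of the two factors have no commuting
conjugates -/

set_option autoImplicit false

namespace Pool.Agent.H34.FKD7

open Pool.Agent.H84.FK

theorem pf_d7 (hD2 : T_D2) : T_D7 := by
  intro G _ A A0 B B0 hC z w g hz hw hzA hwB hc
  have key : ∀ h : G, ∃ b ∈ B, h * z * h⁻¹ = b⁻¹ * z * b := by
    intro h
    obtain ⟨a, ha, b, hb, e⟩ := hC.fac h⁻¹
    refine ⟨b, hb, ?_⟩
    have e2 : h = b⁻¹ * a⁻¹ := by rw [← mul_inv_rev, ← e, inv_inv]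
    have e3 := hzA a ha
    rw [e2]
    calc b⁻¹ * a⁻¹ * z * (b⁻¹ * a⁻¹)⁻¹ = b⁻¹ * (a⁻¹ * (z * a)) * b := by group
      _ = b⁻¹ * (a⁻¹ * (a * z)) * b := by rw [← e3]
      _ = b⁻¹ * z * b := by group
  have hzw : z * w = w * z := by
    obtain ⟨b, hb, e⟩ := key g
    rw [e] at hc
    have e3 := hwB b hb
    have e4 : b * (b⁻¹ * z * b * w) * b⁻¹ = b * (w * (b⁻¹ * z * b)) * b⁻¹ := by rw [hc]
    calc z * w = z * (b * w) * b⁻¹ * 1 := by rw [e3]; group
      _ = b * (b⁻¹ * z * b * w) * b⁻¹ := by group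
      _ = b * (w * (b⁻¹ * z * b)) * b⁻¹ := e4
      _ = (b * w) * b⁻¹ * z := by group
      _ = w * z := by rw [e3]; group
  refine hD2 G A A0 B B0 hC z w hz hw fun h => ?_
  obtain ⟨b, hb, e⟩ := key h
  have e3 := hwB b hb
  rw [e]
  calc b⁻¹ * z * b * w = b⁻¹ * (z * (b * w)) := by group
    _ = b⁻¹ * (z * w) * b := by rw [e3]; group
    _ = b⁻¹ * (w * z) * b := by rw [hzw]
    _ = b⁻¹ * (w * b) * b⁻¹ * z * b := by group
    _ = b⁻¹ * (b * w) * b⁻¹ * z * b := by rw [← e3]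
    _ = w * (b⁻¹ * z * b) := by group

end Pool.Agent.H34.FKD7
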