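import Pool.Agent.H84.FK.Targets2

/-! # Board fk2_modules, module S4: a group with a core-free subgroup of index at most four is
soluble -/

set_option autoImplicit false

namespace Pool.Agent.H34.FKS4

open Pool.Agent.H84.FK
open scoped commutatorElement

theorem solAlt : Group.IsSolvable (alternatingGroup (Fin 4)) := by
  have h4 : Nat.card (Fin 4) = 4 := by simp
  have hN := alternatingGroup.normal_kleinFour h4
  have hk := alternatingGroup.kleinFour_isKleinFour h4
  have hs : Group.IsSolvable (alternatingGroup.kleinFour (Fin 4)) := by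
    apply Group.isSolvable_of_comm
    intro a b
    have h2 : ∀ x : alternatingGroup.kleinFour (Fin 4), x * x = 1 := fun x => by
      have := Monoid.pow_exponent_eq_one x
      rwa [hk.exponent_two, pow_two] at this
    have hi : ∀ x : alternatingGroup.kleinFour (Fin 4), x⁻¹ = x := fun x =>
      inv_eq_of_mul_eq_one_left (h2 x)
    calc a * b = (a * b)⁻¹ := (hi _).symm
      _ = b⁻¹ * a⁻¹ := mul_inv_rev a b
      _ = b * a := by rw [hi, hi]
  have hq : Group.IsSolvable (alternatingGroup (Fin 4) ⧸ alternatingGroup.kleinFour (Fin 4)) := by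
    apply Group.isSolvable_of_comm
    intro a b
    obtain ⟨x, rfl⟩ := QuotientGroup.mk_surjective a
    obtain ⟨y, rfl⟩ := QuotientGroup.mk_surjective b
    rw [← QuotientGroup.mk_mul, ← QuotientGroup.mk_mul, QuotientGroup.eq,
      alternatingGroup.kleinFour_eq_commutator h4]
    have h := Subgroup.commutator_mem_commutator (Subgroup.mem_top y⁻¹) (Subgroup.mem_top x⁻¹)
    have e : (x * y)⁻¹ * (y * x) = ⁅y⁻¹, x⁻¹⁆ := by
      rw [commutatorElement_def]; group
    rw [e]; exact h
  exact (Group.isSolvable_iff_subgroup_quotient (alternatingGroup.kleinFour (Fin 4))).2 ⟨hs, hq⟩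

theorem solPerm : Group.IsSolvable (Equiv.Perm (Fin 4)) := by
  have := solAlt
  refine Group.isSolvable_of_ker_le_range (alternatingGroup (Fin 4)).subtype
    (Equiv.Perm.sign (α := Fin 4)) ?_
  intro x hx
  rw [Subgroup.range_subtype]
  exact hx

theorem pf_s4 : T_S4 := by
  intro G _ _ L hL h4
  have hs := solPerm
  have e : (G ⧸ L) ≃ Fin L.index := by
    rw [Subgroup.index_eq_card]
    exact Finite.equivFin (G ⧸ L)
  let ι : (G ⧸ L) ↪ Fin 4 := e.toEmbedding.trans (Fin.castLEEmb h4)
  let f : G →* Equiv.Perm (Fin 4) :=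
    (Equiv.Perm.viaEmbeddingHom ι).comp (MulAction.toPermHom G (G ⧸ L))
  have hf : Function.Injective f := by
    have h1 : Function.Injective (MulAction.toPermHom G (G ⧸ L)) := by
      rw [← MonoidHom.ker_eq_bot_iff, ← Subgroup.normalCore_eq_ker, hL]
    exact (Equiv.Perm.viaEmbeddingHom_injective ι).comp h1
  exact Group.isSolvable_of_isSolvable_injective hf

end Pool.Agent.H34.FKS4
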